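import Pool.Agent.D0H11.GO.Stm

/-! Project GO, module EQ: averaging of a fast and a slow linear function. -/

set_option autoImplicit false

namespace Pool.Agent.D0H70.GO

open MeasureTheory Set

/-- integrability -/
theorem ii {f : ℝ → ℝ} (hf : Measurable f) {K : ℝ} (hb : ∀ x, |f x| ≤ K) (a b : ℝ) :
    IntervalIntegrable f volume a b := by
  rw [intervalIntegrable_iff]
  apply Measure.integrableOn_of_bounded (M := K)
  · rw [uIoc]
    exact measure_Ioc_lt_top.ne
  · exact hf.aestronglyMeasurable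
  · exact Filter.Eventually.of_forall fun x => by rw [Real.norm_eq_abs]; exact hb x

theorem swap {f : ℝ → ℝ → ℝ} (hf : Measurable (Function.uncurry f)) (hb : ∀ x y, |f x y| ≤ 1)
    {a b c d : ℝ} (hab : a ≤ b) (hcd : c ≤ d) :
    ∫ x in a..b, ∫ y in c..d, f x y = ∫ y in c..d, ∫ x in a..b, f x y := by
  simp_rw [intervalIntegral.integral_of_le hab, intervalIntegral.integral_of_le hcd]
  apply integral_integral_swap
  exact Integrable.of_bound hf.aestronglyMeasurable 1
    (Filter.Eventually.of_forall fun x => by rw [Real.norm_eq_abs]; exact hb x.1 x.2)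

theorem meas_int {f : ℝ → ℝ → ℝ} (hf : Measurable (Function.uncurry f)) {c d : ℝ} (hcd : c ≤ d) :
    Measurable fun x => ∫ y in c..d, f x y := by
  simp_rw [intervalIntegral.integral_of_le hcd]
  exact (hf.stronglyMeasurable.integral_prod_right' (ν := volume.restrict (Ioc c d))).measurable

theorem bd {f : ℝ → ℝ} {K a b : ℝ} (hab : a ≤ b) (hb : ∀ x, |f x| ≤ K) : |∫ x in a..b, f x| ≤ K * (b - a) := by
  have h := intervalIntegral.norm_integral_le_of_norm_le_const (a := a) (b := b) (f := f) (C := K)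
    (fun x _ => by rw [Real.norm_eq_abs]; exact hb x)
  rwa [Real.norm_eq_abs, abs_of_nonneg (by linarith : (0 : ℝ) ≤ b - a)] at h

/-- averaging over a shift -/
theorem avg {f : ℝ → ℝ} (hf : Measurable f) (hb : ∀ x, |f x| ≤ 1) {s t H : ℝ} (hst : s ≤ t) (hH : 0 ≤ H) :
    |H * (∫ x in s..t, f x) - ∫ x in s..t, ∫ h in (0 : ℝ)..H, f (x + h)| ≤ 2 * H ^ 2 := by
  have hm : Measurable (Function.uncurry fun x h : ℝ => f (x + h)) :=
    hf.comp (measurable_fst.add measurable_snd)
  have hm' : Measurable (Function.uncurry fun h x : ℝ => f (x + h)) :=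
    hf.comp (measurable_snd.add measurable_fst)
  rw [swap hm (fun x y => hb _) hst hH]
  have h1 : H * (∫ x in s..t, f x) = ∫ h in (0 : ℝ)..H, ∫ x in s..t, f x := by
    rw [intervalIntegral.integral_const, smul_eq_mul, sub_zero]
  have hbb : ∀ h : ℝ, |∫ x in s..t, f (x + h)| ≤ 1 * (t - s) := fun h => bd hst fun x => hb _
  rw [h1, ← intervalIntegral.integral_sub (by simp) (ii (meas_int hm' hst) hbb 0 H)]
  have h2 := intervalIntegral.norm_integral_le_of_norm_le_const (a := 0) (b := H)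
    (f := fun h : ℝ => (∫ x in s..t, f x) - ∫ x in s..t, f (x + h)) (C := 2 * H) (fun h hh => by
      rw [uIoc_of_le hH] at hh
      rw [Real.norm_eq_abs, intervalIntegral.integral_comp_add_right,
        intervalIntegral.integral_interval_sub_interval_comm (ii hf hb _ _) (ii hf hb _ _) (ii hf hb _ _)]
      have h3 := bd (f := f) (K := 1) (a := s) (b := s + h) (by linarith [hh.1]) hb
      have h4 := bd (f := f) (K := 1) (a := t) (b := t + h) (by linarith [hh.1]) hb
      have h5 := abs_sub (∫ x in s..s + h, f x) (∫ x in t..t + h, f x)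
      have h6 := hh.2
      have h7 := abs_le.1 h3
      have h8 := abs_le.1 h4
      rw [abs_le]
      constructor <;> linarith)
  rw [Real.norm_eq_abs, sub_zero, abs_of_nonneg hH] at h2
  calc _ ≤ 2 * H * H := h2
    _ = 2 * H ^ 2 := by ring

/-- the indicator of `e ∣ ⌊x⌋ + 1` -/
noncomputable def p (e : ℕ) (x : ℝ) : ℝ := if (e : ℤ) ∣ ⌊x⌋ + 1 then 1 else 0

theorem p_meas (e : ℕ) : Measurable (p e) :=
  (Measurable.of_discrete (f := fun n : ℤ => if (e : ℤ) ∣ n + 1 then (1 : ℝ) else 0)).comp Int.measurable_floor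

theorem p_abs (e : ℕ) (x : ℝ) : |p e x| ≤ 1 := by
  unfold p
  split_ifs <;> simp

theorem p_per (e : ℕ) : Function.Periodic (p e) (e : ℝ) := by
  intro x
  unfold p
  rw [Int.floor_add_natCast]
  have h : ((e : ℤ) ∣ ⌊x⌋ + e + 1) ↔ ((e : ℤ) ∣ ⌊x⌋ + 1) := by
    rw [show ⌊x⌋ + (e : ℤ) + 1 = (⌊x⌋ + 1) + e by ring]
    exact dvd_add_self_right
  simp only [h]

theorem ico {f : ℝ → ℝ} {a b : ℝ} (hab : a ≤ b) : ∫ x in a..b, f x = ∫ x in Ico a b, f x := by
  rw [intervalIntegral.integral_of_le hab, integral_Ioc_eq_integral_Ioo, ← integral_Ico_eq_integral_Ioo]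

theorem p_int (e : ℕ) (he : 1 ≤ e) : ∫ x in (0 : ℝ)..e, p e x = 1 := by
  have heR : (1 : ℝ) ≤ e := by exact_mod_cast he
  rw [← intervalIntegral.integral_add_adjacent_intervals (b := (e : ℝ) - 1) (ii (p_meas e) (p_abs e) _ _)
    (ii (p_meas e) (p_abs e) _ _), ico (by linarith), ico (by linarith),
    setIntegral_congr_fun (g := fun _ => (0 : ℝ)) measurableSet_Ico, 
    setIntegral_congr_fun (s := Ico ((e : ℝ) - 1) e) (g := fun _ => (1 : ℝ)) measurableSet_Ico]
  · simp
  · intro x hx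
    have h1 : ⌊x⌋ = (e : ℤ) - 1 := by
      rw [Int.floor_eq_iff]
      push_cast
      exact ⟨hx.1, by linarith [hx.2]⟩
    simp only [p, h1, sub_add_cancel, dvd_refl, if_true]
  · intro x hx
    have h1 : 0 ≤ ⌊x⌋ := Int.floor_nonneg.2 hx.1
    have h2 : ⌊x⌋ < (e : ℤ) - 1 := by
      rw [Int.floor_lt]
      push_cast
      exact hx.2
    have h3 : ¬ (e : ℤ) ∣ ⌊x⌋ + 1 := by
      intro h
      have := Int.le_of_dvd (by omega) h
      omega
    simp only [p, h3, if_false]

/-- `x` is within `η` of an integer -/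
def R (η : ℝ) : Set ℝ := {x : ℝ | Int.fract x ≤ η ∨ 1 - η ≤ Int.fract x}

theorem R_meas (η : ℝ) : MeasurableSet (R η) := by
  apply MeasurableSet.union
  · exact measurable_fract measurableSet_Iic
  · exact measurable_fract measurableSet_Ici

noncomputable def r (η : ℝ) : ℝ → ℝ := (R η).indicator 1

theorem r_meas (η : ℝ) : Measurable (r η) := measurable_one.indicator (R_meas η)

theorem r_nonneg (η x : ℝ) : 0 ≤ r η x := by
  unfold r
  apply indicator_nonneg
  intro _ _
  simp

theorem r_abs (η x : ℝ) : |r η x| ≤ 1 := by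
  unfold r indicator
  split_ifs <;> simp

theorem r_per (η : ℝ) : Function.Periodic (r η) 1 := by
  intro x
  unfold r indicator R
  simp only [mem_ofPred_eq, Int.fract_add_one, Pi.one_apply]

theorem r_int {η : ℝ} (hη : 0 ≤ η) : ∫ x in (0 : ℝ)..1, r η x ≤ 2 * η := by
  rw [ico zero_le_one]
  unfold r
  rw [integral_indicator_one (R_meas η), measureReal_restrict_apply (R_meas η)]
  have h1 : R η ∩ Ico 0 1 ⊆ Icc 0 η ∪ Icc (1 - η) 1 := by
    rintro x ⟨hx, hx'⟩
    have h2 : Int.fract x = x := Int.fract_eq_self.2 ⟨hx'.1, hx'.2⟩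
    rcases hx with h | h
    · left
      rw [h2] at h
      exact ⟨hx'.1, h⟩
    · right
      rw [h2] at h
      exact ⟨h, hx'.2.le⟩
  have h3 : volume.real (R η ∩ Ico 0 1) ≤ volume.real (Icc 0 η ∪ Icc (1 - η) 1) := by
    exact measureReal_mono h1 (measure_union_lt_top measure_Icc_lt_top measure_Icc_lt_top).ne
  refine h3.trans ((measureReal_union_le _ _).trans ?_)
  rw [Real.volume_real_Icc_of_le hη, Real.volume_real_Icc_of_le (by linarith)]
  linarith

/-- comparison -/
theorem p_comp (e : ℕ) {η v δ : ℝ} (hδ : |δ| ≤ η) : |p e (v + δ) - p e v| ≤ r η v := by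
  by_cases h : v ∈ R η
  · have h1 : r η v = 1 := by unfold r; rw [indicator_of_mem h]; rfl
    rw [h1]
    unfold p
    split_ifs <;> simp
  · have h1 : ⌊v + δ⌋ = ⌊v⌋ := by
      unfold R at h
      rw [mem_ofPred_eq, not_or, not_le, not_le] at h
      rw [Int.floor_eq_iff]
      have h2 := Int.floor_add_fract v
      have h3 := abs_le.1 hδ
      constructor <;> linarith
    unfold p
    rw [h1, sub_self, abs_zero]
    exact r_nonneg η v

/-- integral of a periodic function over several periods -/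
theorem per {f : ℝ → ℝ} (hf : Measurable f) (hb : ∀ x, |f x| ≤ 1) {T : ℝ} (hT : Function.Periodic f T) (n : ℕ)
    (c : ℝ) : ∫ x in c..c + n * T, f x = n * ∫ x in (0 : ℝ)..T, f x := by
  have h := hT.intervalIntegral_add_zsmul_eq (n : ℤ) c (fun a b => ii hf hb a b)
  rw [hT.intervalIntegral_add_eq c 0, zero_add] at h
  simpa using h

/-- one linear function -/
theorem one (e : ℕ) (he : 1 ≤ e) {B : ℝ} (hB : B ≠ 0) (c : ℝ) {s t : ℝ} (hst : s ≤ t) :
    |(∫ x in s..t, p e (c + x * B)) - (t - s) / e| ≤ 2 * e / |B| := by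
  have heR : (0 : ℝ) < e := by exact_mod_cast he
  have hB0 : 0 < |B| := abs_pos.2 hB
  have hm : Measurable fun x : ℝ => p e (c + x * B) := (p_meas e).comp (by fun_prop)
  have h1 := avg hm (fun x => p_abs e _) hst (H := e / |B|) (by positivity)
  have h2 : ∀ x : ℝ, ∫ h in (0 : ℝ)..e / |B|, p e (c + (x + h) * B) = 1 / |B| := by
    intro x
    have h3 : ∀ h : ℝ, c + (x + h) * B = B * h + (c + x * B) := fun h => by ring
    simp_rw [h3]
    rw [intervalIntegral.integral_comp_mul_add _ hB, smul_eq_mul]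
    rcases lt_or_gt_of_ne hB with h4 | h4
    · rw [abs_of_neg h4, intervalIntegral.integral_symm]
      have h5 : B * 0 + (c + x * B) = (B * (e / -B) + (c + x * B)) + (1 : ℕ) * e := by
        push_cast
        field_simp
        ring
      rw [h5, per (p_meas e) (p_abs e) (p_per e), p_int e he]
      push_cast
      field_simp
    · rw [abs_of_pos h4]
      have h5 : B * (e / B) + (c + x * B) = (B * 0 + (c + x * B)) + (1 : ℕ) * e := by
        push_cast
        field_simp
        ring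
      rw [h5, per (p_meas e) (p_abs e) (p_per e), p_int e he]
      push_cast
      field_simp
  simp_rw [h2] at h1
  rw [intervalIntegral.integral_const, smul_eq_mul] at h1
  generalize (∫ x in s..t, p e (c + x * B)) = I at h1 ⊢
  have h6 : (e : ℝ) / |B| * I - (t - s) * (1 / |B|) = e / |B| * (I - (t - s) / e) := by
    field_simp
  rw [h6, abs_mul, abs_of_pos (by positivity : 0 < (e : ℝ) / |B|)] at h1
  have h7 : (0 : ℝ) < e / |B| := by positivity
  have h8 : 2 * ((e : ℝ) / |B|) ^ 2 = e / |B| * (2 * e / |B|) := by ring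
  rw [h8] at h1
  exact le_of_mul_le_mul_left h1 h7

/-- product of the two indicators: a periodic function of the fast variable -/
theorem fast (k e e' : ℕ) {A : ℝ} (hA : 0 < A) (x w : ℝ) :
    ∫ h in (0 : ℝ)..(e * e') / A, p e ((x + h) * A) * p e' (2 ^ k * ((x + h) * A) + w) =
      A⁻¹ * ∫ L in (0 : ℝ)..e * e', p e L * p e' (2 ^ k * L + w) := by
  obtain ⟨φ, hφ⟩ : ∃ φ : ℝ → ℝ, φ = fun L => p e L * p e' (2 ^ k * L + w) := ⟨_, rfl⟩
  have hm : Measurable φ := by
    rw [hφ]
    exact (p_meas e).mul ((p_meas e').comp (by fun_prop))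
  have hb : ∀ L, |φ L| ≤ 1 := by
    intro L
    rw [hφ]
    simp only
    rw [abs_mul]
    exact mul_le_one₀ (p_abs _ _) (abs_nonneg _) (p_abs _ _)
  have hp : Function.Periodic φ ((e : ℝ) * e') := by
    intro L
    rw [hφ]
    simp only
    have h1 := (p_per e).nat_mul e' L
    have h2 := (p_per e').nat_mul (2 ^ k * e) (2 ^ k * L + w)
    rw [mul_comm (e : ℝ) e', h1,
      show 2 ^ k * (L + (e' : ℝ) * e) + w = 2 ^ k * L + w + ((2 ^ k * e : ℕ) : ℝ) * e' by push_cast; ring, h2]
  have h1 : ∀ h : ℝ, p e ((x + h) * A) * p e' (2 ^ k * ((x + h) * A) + w) = φ (A * h + x * A) := by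
    intro h
    rw [hφ]
    simp only
    rw [show A * h + x * A = (x + h) * A by ring]
  simp_rw [h1]
  rw [intervalIntegral.integral_comp_mul_add _ hA.ne', smul_eq_mul,
    show A * ((e : ℝ) * e' / A) + x * A = (A * 0 + x * A) + (1 : ℕ) * ((e : ℝ) * e') by
      push_cast
      field_simp
      ring,
    per hm hb hp, hφ]
  push_cast
  ring

theorem t_EQ : Pool.Agent.D0H11.GO.S_EQ := by
  refine ⟨4, by norm_num, ?_⟩
  intro A B s t k e e' hA hB hBA hst he he'
  have heR : (1 : ℝ) ≤ e := by exact_mod_cast he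
  have heR' : (1 : ℝ) ≤ e' := by exact_mod_cast he'
  have hB0 : 0 < |B| := abs_pos.2 hB
  obtain ⟨Q, hQ⟩ : ∃ Q : ℝ, Q = e * e' := ⟨_, rfl⟩
  have hQ1 : 1 ≤ Q := by rw [hQ]; nlinarith
  have hQe : (e' : ℝ) ≤ Q := by rw [hQ]; nlinarith
  obtain ⟨H, hH⟩ : ∃ H : ℝ, H = Q / A := ⟨_, rfl⟩
  have hH0 : 0 < H := by rw [hH]; positivity
  obtain ⟨η, hη⟩ : ∃ η : ℝ, η = H * |B| := ⟨_, rfl⟩
  have hη0 : 0 ≤ η := by rw [hη]; positivity
  obtain ⟨f, hf⟩ : ∃ f : ℝ → ℝ, f = fun x => p e (x * A) * p e' (x * (2 ^ k * A + B)) := ⟨_, rfl⟩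
  have hfm : Measurable f := by
    rw [hf]
    exact ((p_meas e).comp (by fun_prop)).mul ((p_meas e').comp (by fun_prop))
  have hfb : ∀ x, |f x| ≤ 1 := by
    intro x
    rw [hf]
    simp only
    rw [abs_mul]
    exact mul_le_one₀ (p_abs _ _) (abs_nonneg _) (p_abs _ _)
  have hT : ∀ x, ((e : ℤ) ∣ ⌊x * A⌋ + 1 ∧ (e' : ℤ) ∣ ⌊x * (2 ^ k * A + B)⌋ + 1) ↔ f x = 1 := by
    intro x
    simp only [hf, p]
    split_ifs with h1 h2 h2 <;> simp [h1, h2]
  have hf01 : ∀ x, f x ≠ 1 → f x = 0 := by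
    intro x
    simp only [hf, p]
    split_ifs <;> simp
  have h0 : (volume {α : ℝ | α ∈ Set.Icc s t ∧ (e : ℤ) ∣ ⌊α * A⌋ + 1 ∧
      (e' : ℤ) ∣ ⌊α * (2 ^ k * A + B)⌋ + 1}).toReal = ∫ x in s..t, f x := by
    have hTm : MeasurableSet (f ⁻¹' {1}) := hfm (measurableSet_singleton 1)
    have h1 : ∀ x, f x = (f ⁻¹' {1}).indicator 1 x := by
      intro x
      by_cases h : f x = 1
      · rw [indicator_of_mem (by exact h), h]
        rfl
      · rw [indicator_of_notMem (by exact h), hf01 x h]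
    rw [intervalIntegral.integral_of_le hst, ← integral_Icc_eq_integral_Ioc,
      setIntegral_congr_fun measurableSet_Icc (fun x _ => h1 x), integral_indicator_one hTm,
      measureReal_restrict_apply hTm]
    have h2 : {α : ℝ | α ∈ Set.Icc s t ∧ (e : ℤ) ∣ ⌊α * A⌋ + 1 ∧ (e' : ℤ) ∣ ⌊α * (2 ^ k * A + B)⌋ + 1} =
        f ⁻¹' {1} ∩ Icc s t := by
      ext x
      constructor
      · rintro ⟨h3, h4⟩
        exact ⟨(hT x).1 h4, h3⟩
      · rintro ⟨h3, h4⟩
        exact ⟨h4, (hT x).2 h3⟩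
    rw [h2]
    rfl
  rw [h0]
  have h1 := avg hfm hfb hst hH0.le
  -- the slow variable is frozen
  obtain ⟨g, hg⟩ : ∃ g : ℝ → ℝ → ℝ, g = fun x h => p e ((x + h) * A) * p e' (2 ^ k * ((x + h) * A) + x * B) :=
    ⟨_, rfl⟩
  have hgm : Measurable (Function.uncurry g) := by
    rw [hg]
    exact ((p_meas e).comp (by fun_prop)).mul ((p_meas e').comp (by fun_prop))
  have hgb : ∀ x h, |g x h| ≤ 1 := by
    intro x h
    rw [hg]
    simp only
    rw [abs_mul]
    exact mul_le_one₀ (p_abs _ _) (abs_nonneg _) (p_abs _ _)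
  have hfm2 : Measurable (Function.uncurry fun x h : ℝ => f (x + h)) :=
    hfm.comp (measurable_fst.add measurable_snd)
  have h2 : ∀ x, |(∫ h in (0 : ℝ)..H, f (x + h)) - ∫ h in (0 : ℝ)..H, g x h| ≤ H * (2 * η) := by
    intro x
    have hgx : Measurable (g x) := hgm.comp (measurable_const.prodMk measurable_id)
    have hfx : Measurable fun h => f (x + h) := hfm.comp (measurable_const.add measurable_id)
    rw [← intervalIntegral.integral_sub (ii hfx (fun h => hfb _) _ _) (ii hgx (hgb x) _ _)]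
    refine (intervalIntegral.abs_integral_le_integral_abs hH0.le).trans ?_
    have hpw : ∀ h ∈ Icc 0 H, |f (x + h) - g x h| ≤ r η (2 ^ k * A * h + (2 ^ k * (x * A) + x * B)) := by
      intro h hh
      rw [hf, hg]
      simp only
      have h3 : (x + h) * (2 ^ k * A + B) = (2 ^ k * ((x + h) * A) + x * B) + h * B := by ring
      have h4 : 2 ^ k * A * h + (2 ^ k * (x * A) + x * B) = 2 ^ k * ((x + h) * A) + x * B := by ring
      rw [h3, h4, ← mul_sub, abs_mul]
      have h5 : |h * B| ≤ η := by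
        rw [abs_mul, abs_of_nonneg hh.1, hη]
        exact mul_le_mul_of_nonneg_right hh.2 hB0.le
      have h6 := p_comp e' (v := 2 ^ k * ((x + h) * A) + x * B) h5
      calc _ ≤ 1 * |p e' (2 ^ k * ((x + h) * A) + x * B + h * B) - p e' (2 ^ k * ((x + h) * A) + x * B)| :=
            mul_le_mul_of_nonneg_right (p_abs _ _) (abs_nonneg _)
        _ ≤ _ := by rw [one_mul]; exact h6
    have hrm : Measurable fun h : ℝ => r η (2 ^ k * A * h + (2 ^ k * (x * A) + x * B)) :=
      (r_meas η).comp (by fun_prop)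
    have h3 : ∫ h in (0 : ℝ)..H, |f (x + h) - g x h| ≤
        ∫ h in (0 : ℝ)..H, r η (2 ^ k * A * h + (2 ^ k * (x * A) + x * B)) := by
      apply intervalIntegral.integral_mono_on hH0.le _ (ii hrm (fun h => r_abs _ _) _ _) hpw
      apply ii (K := 2) (by
        have := hfx.sub hgx
        exact (measurable_norm.comp this))
      intro h
      rw [abs_abs]
      refine (abs_sub _ _).trans ?_
      linarith [hfb (x + h), hgb x h]
    refine h3.trans ?_
    have hkA : (0 : ℝ) < 2 ^ k * A := by positivity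
    rw [intervalIntegral.integral_comp_mul_add _ hkA.ne', smul_eq_mul,
      show 2 ^ k * A * H + (2 ^ k * (x * A) + x * B) =
        (2 ^ k * A * 0 + (2 ^ k * (x * A) + x * B)) + ((2 ^ k * (e * e') : ℕ) : ℝ) * 1 by
        rw [hH, hQ]
        push_cast
        field_simp
        ring,
      per (r_meas η) (r_abs η) (r_per η)]
    have h4 := r_int hη0
    have h5 : (2 ^ k * A)⁻¹ * ((2 ^ k * (e * e') : ℕ) : ℝ) = H := by
      rw [hH, hQ]
      push_cast
      field_simp
    rw [← mul_assoc, h5]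
    exact mul_le_mul_of_nonneg_left h4 hH0.le
  have h3 : |(∫ x in s..t, ∫ h in (0 : ℝ)..H, f (x + h)) - ∫ x in s..t, ∫ h in (0 : ℝ)..H, g x h| ≤
      H * (2 * η) * (t - s) := by
    have hbf : ∀ x : ℝ, |∫ h in (0 : ℝ)..H, f (x + h)| ≤ 1 * (H - 0) := fun x => bd hH0.le fun h => hfb _
    have hbg : ∀ x : ℝ, |∫ h in (0 : ℝ)..H, g x h| ≤ 1 * (H - 0) := fun x => bd hH0.le fun h => hgb _ _
    rw [← intervalIntegral.integral_sub (ii (meas_int hfm2 hH0.le) hbf _ _) (ii (meas_int hgm hH0.le) hbg _ _)]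
    exact bd hst h2
  have h4 : ∀ x, ∫ h in (0 : ℝ)..H, g x h = A⁻¹ * ∫ L in (0 : ℝ)..Q, p e L * p e' (2 ^ k * L + x * B) := by
    intro x
    rw [hg, hH, hQ]
    exact fast k e e' hA x (x * B)
  simp_rw [h4] at h3
  rw [intervalIntegral.integral_const_mul] at h3
  -- the slow variable
  have hsw : ∫ x in s..t, ∫ L in (0 : ℝ)..Q, p e L * p e' (2 ^ k * L + x * B) =
      ∫ L in (0 : ℝ)..Q, p e L * ∫ x in s..t, p e' (2 ^ k * L + x * B) := by
    rw [swap (f := fun x L => p e L * p e' (2 ^ k * L + x * B)) _ _ hst (by linarith)]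
    · simp_rw [intervalIntegral.integral_const_mul]
    · exact ((p_meas e).comp (by fun_prop)).mul ((p_meas e').comp (by fun_prop))
    · intro x L
      rw [abs_mul]
      exact mul_le_one₀ (p_abs _ _) (abs_nonneg _) (p_abs _ _)
  rw [hsw] at h3
  have hmi : Measurable fun L : ℝ => ∫ x in s..t, p e' (2 ^ k * L + x * B) :=
    meas_int (f := fun L x => p e' (2 ^ k * L + x * B)) ((p_meas e').comp (by fun_prop)) hst
  have h5 : |(∫ L in (0 : ℝ)..Q, p e L * ∫ x in s..t, p e' (2 ^ k * L + x * B)) - (t - s)| ≤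
      2 * e' / |B| * (Q - 0) := by
    have h6 : ∫ L in (0 : ℝ)..Q, p e L * ((t - s) / e') = t - s := by
      rw [intervalIntegral.integral_mul_const]
      have := per (p_meas e) (p_abs e) (p_per e) e' 0
      rw [p_int e he, zero_add, mul_one] at this
      rw [hQ, mul_comm (e : ℝ) e', this]
      field_simp
    have hbi : ∀ L : ℝ, |p e L * ∫ x in s..t, p e' (2 ^ k * L + x * B)| ≤ 1 * (t - s) := by
      intro L
      rw [abs_mul]
      exact mul_le_mul (p_abs _ _) ((bd hst fun x => p_abs e' _).trans (by linarith)) (abs_nonneg _) zero_le_one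
    have hbj : ∀ L : ℝ, |p e L * ((t - s) / e')| ≤ 1 * (t - s) := by
      intro L
      rw [abs_mul, abs_of_nonneg (div_nonneg (by linarith) (by linarith) : 0 ≤ (t - s) / (e' : ℝ))]
      exact mul_le_mul (p_abs _ _) (div_le_self (by linarith) heR') (by apply div_nonneg <;> linarith) zero_le_one
    rw [← h6]
    have hi1 : IntervalIntegrable (fun L => p e L * ∫ x in s..t, p e' (2 ^ k * L + x * B)) volume 0 Q :=
      ii ((p_meas e).mul hmi) hbi 0 Q
    have hi2 : IntervalIntegrable (fun L => p e L * ((t - s) / e')) volume 0 Q :=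
      ii ((p_meas e).mul_const _) hbj 0 Q
    rw [← intervalIntegral.integral_sub hi1 hi2]
    apply bd (by linarith)
    intro L
    rw [← mul_sub, abs_mul]
    have h7 := one e' he' hB (2 ^ k * L) hst
    calc _ ≤ 1 * |(∫ x in s..t, p e' (2 ^ k * L + x * B)) - (t - s) / e'| :=
          mul_le_mul_of_nonneg_right (p_abs _ _) (abs_nonneg _)
      _ ≤ _ := by rw [one_mul]; exact h7
  generalize (∫ L in (0 : ℝ)..Q, p e L * ∫ x in s..t, p e' (2 ^ k * L + x * B)) = J at h3 h5
  generalize (∫ x in s..t, ∫ h in (0 : ℝ)..H, f (x + h)) = S at h1 h3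
  generalize (∫ x in s..t, f x) = I at h1 ⊢
  rw [← hQ]
  obtain ⟨d, hd⟩ : ∃ d : ℝ, d = t - s := ⟨_, rfl⟩
  have hd0 : 0 ≤ d := by rw [hd]; linarith
  rw [← hd] at h3 h5 ⊢
  obtain ⟨w, hw⟩ : ∃ w : ℝ, w = 1 / |B| := ⟨_, rfl⟩
  have hw0 : 0 < w := by rw [hw]; positivity
  obtain ⟨u, hu⟩ : ∃ u : ℝ, u = |B| / A := ⟨_, rfl⟩
  have hu0 : 0 < u := by rw [hu]; positivity
  rw [← hw, ← hu]
  have hHw : H ≤ Q * w := by
    rw [hH, hw, mul_one_div]
    exact div_le_div_of_nonneg_left (by linarith) hB0 hBA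
  have hηu : η = Q * u := by
    rw [hη, hH, hu]
    ring
  have hAinv : A⁻¹ = H / Q := by
    rw [hH]
    field_simp
  have h5' : |J - d| ≤ 2 * e' * w * Q := by
    refine h5.trans (le_of_eq ?_)
    rw [hw]
    ring
  have h6 : |A⁻¹ * J - H * (d / Q)| ≤ H * (2 * e' * w) := by
    have h7 : A⁻¹ * J - H * (d / Q) = A⁻¹ * (J - d) := by
      rw [hAinv]
      field_simp
    rw [h7, abs_mul, abs_of_pos (by positivity : 0 < A⁻¹)]
    calc A⁻¹ * |J - d| ≤ A⁻¹ * (2 * e' * w * Q) := mul_le_mul_of_nonneg_left h5' (by positivity)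
      _ = H * (2 * e' * w) := by rw [hAinv]; field_simp
  have h7 : |H * I - H * (d / Q)| ≤ H * (2 * H + 2 * η * d + 2 * e' * w) := by
    have h8 := abs_le.1 h1
    have h9 := abs_le.1 h3
    have h10 := abs_le.1 h6
    rw [abs_le]
    constructor <;> nlinarith
  rw [← mul_sub, abs_mul, abs_of_pos hH0] at h7
  have h8 := le_of_mul_le_mul_left h7 hH0
  refine h8.trans ?_
  have h9 : 2 * H + 2 * η * d + 2 * e' * w ≤ 4 * Q * w + 2 * Q * u * d := by
    rw [hηu]
    have : (e' : ℝ) * w ≤ Q * w := mul_le_mul_of_nonneg_right hQe hw0.le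
    linarith
  refine h9.trans ?_
  have h10 : Q ≤ Q ^ 2 := by nlinarith
  calc 4 * Q * w + 2 * Q * u * d ≤ 4 * Q * (d + 1) * (u + w) := by
        have : 0 ≤ Q * u * d := by positivity
        have : 0 ≤ Q * w * d := by positivity
        have : 0 ≤ Q * u := by positivity
        nlinarith
    _ ≤ 4 * Q ^ 2 * (d + 1) * (u + w) := by
        apply mul_le_mul_of_nonneg_right _ (by positivity)
        apply mul_le_mul_of_nonneg_right _ (by positivity)
        linarith

end Pool.Agent.D0H70.GO
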